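import Mathlib
import Pool.Agent.Helper67.KZ.Defs

/-!
# Anti-concentration on swap classes
-/

set_option autoImplicit false

namespace Pool.Agent.Helper67.KZ

open Finset

/-- The number of coordinates equal to `a` or `b`. -/
def marked {Ω : Type} [DecidableEq Ω] (a b : Ω) {M : ℕ} (ω : Fin M → Ω) : ℕ :=
  (Finset.univ.filter fun i => ω i = a ∨ ω i = b).card

/-! ### central binomial coefficients -/

lemma centralBinom_sq_le (k : ℕ) : (Nat.centralBinom k) ^ 2 * (2 * k + 1) ≤ 16 ^ k := by
  induction k with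
  | zero => simp
  | succ k ih =>
    have h := Nat.succ_mul_centralBinom_succ k
    have h1 : ((k + 1) * Nat.centralBinom (k + 1)) ^ 2 * (2 * (k + 1) + 1) ≤
        (k + 1) ^ 2 * 16 ^ (k + 1) := by
      rw [h]
      calc (2 * (2 * k + 1) * Nat.centralBinom k) ^ 2 * (2 * (k + 1) + 1)
          = (4 * ((2 * k + 1) * (2 * k + 3))) * ((Nat.centralBinom k) ^ 2 * (2 * k + 1)) := by ring
        _ ≤ (4 * (4 * (k + 1) ^ 2)) * 16 ^ k := by
            apply Nat.mul_le_mul _ ih
            nlinarith
        _ = (k + 1) ^ 2 * 16 ^ (k + 1) := by ring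
    have h2 : (k + 1) ^ 2 * ((Nat.centralBinom (k + 1)) ^ 2 * (2 * (k + 1) + 1)) ≤
        (k + 1) ^ 2 * 16 ^ (k + 1) := by
      calc (k + 1) ^ 2 * ((Nat.centralBinom (k + 1)) ^ 2 * (2 * (k + 1) + 1))
          = ((k + 1) * Nat.centralBinom (k + 1)) ^ 2 * (2 * (k + 1) + 1) := by ring
        _ ≤ _ := h1
    exact Nat.le_of_mul_le_mul_left h2 (by positivity)

lemma choose_half_sq_le (m : ℕ) : (m.choose (m / 2)) ^ 2 * (m + 1) ≤ 4 ^ m := by
  rcases Nat.even_or_odd' m with ⟨k, rfl | rfl⟩
  · have h := centralBinom_sq_le k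
    rw [Nat.mul_div_cancel_left _ (by norm_num : 0 < 2)]
    rw [Nat.centralBinom_eq_two_mul_choose] at h
    calc _ ≤ 16 ^ k := h
      _ = 4 ^ (2 * k) := by rw [pow_mul]; norm_num
  · have h := centralBinom_sq_le (k + 1)
    have e1 : (2 * k + 1) / 2 = k := by omega
    rw [e1]
    have e2 : Nat.centralBinom (k + 1) = 2 * (2 * k + 1).choose k := by
      rw [Nat.centralBinom_eq_two_mul_choose, show 2 * (k + 1) = (2 * k + 1) + 1 by ring,
        Nat.choose_succ_succ, Nat.choose_symm_half]
      ring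
    rw [e2] at h
    have h3 : 4 * (((2 * k + 1).choose k) ^ 2 * (2 * k + 1 + 1)) ≤ 4 * 4 ^ (2 * k + 1) := by
      calc 4 * (((2 * k + 1).choose k) ^ 2 * (2 * k + 1 + 1))
          ≤ (2 * (2 * k + 1).choose k) ^ 2 * (2 * (k + 1) + 1) := by nlinarith [sq_nonneg ((2 * k + 1).choose k)]
        _ ≤ 16 ^ (k + 1) := h
        _ = 4 * 4 ^ (2 * k + 1) := by
            rw [show (16 : ℕ) = 4 ^ 2 by norm_num, ← pow_mul]; ring
    exact Nat.le_of_mul_le_mul_left h3 (by norm_num)

lemma choose_half_le (m : ℕ) :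
    ((m.choose (m / 2) : ℕ) : ℝ) ≤ 2 ^ m * (1 / Real.sqrt ((m : ℝ) + 1)) := by
  have h : (((m.choose (m / 2) : ℕ) : ℝ)) ^ 2 * ((m : ℝ) + 1) ≤ 4 ^ m := by
    exact_mod_cast choose_half_sq_le m
  have hm : (0 : ℝ) < (m : ℝ) + 1 := by positivity
  have hs : 0 < Real.sqrt ((m : ℝ) + 1) := Real.sqrt_pos.2 hm
  rw [mul_one_div, le_div_iff₀ hs]
  rw [← pow_le_pow_iff_left₀ (by positivity) (by positivity) two_ne_zero, mul_pow,
    Real.sq_sqrt hm.le, ← pow_mul, mul_comm m 2, pow_mul]
  norm_num
  exact h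

/-! ### Littlewood-Offord -/

lemma littlewood_offord {ι : Type} [Fintype ι] [DecidableEq ι] (c : ι → ℚ) (hc : ∀ i, c i ≠ 0)
    (t : ℚ) : (Finset.univ.filter fun A : Finset ι => ∑ i ∈ A, c i = t).card ≤
      (Fintype.card ι).choose (Fintype.card ι / 2) := by
  classical
  set N : Finset ι := Finset.univ.filter fun i => c i < 0 with hN
  have key : ∀ A : Finset ι, ∑ i ∈ symmDiff A N, |c i| = ∑ i ∈ A, c i + ∑ i ∈ N, |c i| := by
    intro A
    have h1 : ∀ i, (if i ∈ symmDiff A N then |c i| else 0) =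
        (if i ∈ A then c i else 0) + (if i ∈ N then |c i| else 0) := by
      intro i
      have hi : i ∈ N ↔ c i < 0 := by rw [hN]; simp
      by_cases hA : i ∈ A <;> by_cases hn : c i < 0
      · have hiN := hi.2 hn
        simp [Finset.mem_symmDiff, hA, hiN, abs_of_neg hn]
      · have hiN : i ∉ N := fun h => hn (hi.1 h)
        simp [Finset.mem_symmDiff, hA, hiN, abs_of_nonneg (not_lt.1 hn)]
      · have hiN := hi.2 hn
        simp [Finset.mem_symmDiff, hA, hiN]
      · have hiN : i ∉ N := fun h => hn (hi.1 h)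
        simp [Finset.mem_symmDiff, hA, hiN]
    have h2 : ∀ B : Finset ι, ∀ g : ι → ℚ, ∑ i ∈ B, g i = ∑ i, if i ∈ B then g i else 0 := by
      intro B g
      rw [Finset.sum_ite_mem, Finset.univ_inter]
    rw [h2 _ (fun i => |c i|), h2 A, h2 N, ← Finset.sum_add_distrib]
    exact Finset.sum_congr rfl fun i _ => h1 i
  set F := (Finset.univ.filter fun A : Finset ι => ∑ i ∈ A, c i = t) with hF
  have hinj : Function.Injective (fun A : Finset ι => symmDiff A N) :=
    symmDiff_left_injective N
  rw [← Finset.card_image_of_injective F hinj]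
  apply IsAntichain.sperner
  intro A hA B hB hne hle
  simp only [Finset.coe_image, Set.mem_image, Finset.mem_coe, hF, Finset.mem_filter,
    Finset.mem_univ, true_and] at hA hB
  obtain ⟨A0, hA0, rfl⟩ := hA
  obtain ⟨B0, hB0, rfl⟩ := hB
  have h1 := key A0
  have h2 := key B0
  rw [hA0] at h1
  rw [hB0] at h2
  have hlt : symmDiff A0 N ⊂ symmDiff B0 N := Finset.ssubset_iff_subset_ne.2 ⟨hle, hne⟩
  have h3 : ∑ i ∈ symmDiff A0 N, |c i| < ∑ i ∈ symmDiff B0 N, |c i| := by
    obtain ⟨i, hi, hi2⟩ := Finset.exists_of_ssubset hlt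
    exact Finset.sum_lt_sum_of_subset hle hi hi2 (abs_pos.2 (hc i)) fun j _ _ => abs_nonneg _
  rw [h1, h2] at h3
  exact lt_irrefl _ h3

/-! ### the fibres of the replacement of `a` by `b` -/

section fibre

variable {Ω : Type} [DecidableEq Ω]

/-- replace `a` by `b` -/
def rep (a b : Ω) {M : ℕ} (ω : Fin M → Ω) : Fin M → Ω := fun i => if ω i = a then b else ω i

/-- put `a` at the places in `A` -/
def put (a b : Ω) {M : ℕ} (r : Fin M → Ω) (A : Finset {i : Fin M // r i = b}) : Fin M → Ω :=
  fun i => if h : r i = b then (if (⟨i, h⟩ : {i : Fin M // r i = b}) ∈ A then a else b) else r i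

lemma put_empty (a b : Ω) {M : ℕ} (r : Fin M → Ω) : put a b r ∅ = r := by
  funext i
  unfold put
  split_ifs with h h1
  · simp at h1
  · exact h.symm
  · rfl

lemma put_insert (a b : Ω) {M : ℕ} (r : Fin M → Ω) (A : Finset {i : Fin M // r i = b})
    (j : {i : Fin M // r i = b}) :
    put a b r (insert j A) = Function.update (put a b r A) j.1 a := by
  funext i
  by_cases hij : i = j.1
  · subst hij
    rw [Function.update_self]
    unfold put
    rw [dif_pos j.2, if_pos (by simp)]
  · rw [Function.update_of_ne hij]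
    unfold put
    by_cases h : r i = b
    · rw [dif_pos h, dif_pos h]
      have : ((⟨i, h⟩ : {i : Fin M // r i = b}) ∈ insert j A) ↔
          ((⟨i, h⟩ : {i : Fin M // r i = b}) ∈ A) := by
        rw [Finset.mem_insert]
        constructor
        · rintro (h1 | h1)
          · exact absurd (congrArg Subtype.val h1) hij
          · exact h1
        · exact Or.inr
      simp only [this]
    · rw [dif_neg h, dif_neg h]

lemma put_update (a b : Ω) {M : ℕ} (r : Fin M → Ω) (A : Finset {i : Fin M // r i = b})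
    (j : {i : Fin M // r i = b}) (hj : j ∉ A) :
    Function.update (put a b r A) j.1 b = put a b r A := by
  funext i
  by_cases hij : i = j.1
  · subst hij
    rw [Function.update_self]
    unfold put
    rw [dif_pos j.2, if_neg hj]
  · rw [Function.update_of_ne hij]

lemma put_injective {a b : Ω} (hab : a ≠ b) {M : ℕ} (r : Fin M → Ω) :
    Function.Injective (put a b r) := by
  intro A B h
  ext j
  have h1 := congrFun h j.1
  unfold put at h1
  rw [dif_pos j.2, dif_pos j.2] at h1
  by_cases hA : j ∈ A <;> by_cases hB : j ∈ B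
  · simp [hA, hB]
  · rw [if_pos hA, if_neg hB] at h1; exact absurd h1 hab
  · rw [if_neg hA, if_pos hB] at h1; exact absurd h1.symm hab
  · simp [hA, hB]

lemma rep_put {a b : Ω} {M : ℕ} (r : Fin M → Ω) (hr : ∀ i, r i ≠ a)
    (A : Finset {i : Fin M // r i = b}) : rep a b (put a b r A) = r := by
  funext i
  unfold rep put
  by_cases h : r i = b
  · rw [dif_pos h]
    split_ifs <;> simp_all
  · rw [dif_neg h, if_neg (hr i)]

lemma rep_ne {a b : Ω} (hab : a ≠ b) {M : ℕ} (ω : Fin M → Ω) (i : Fin M) : rep a b ω i ≠ a := by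
  unfold rep
  split_ifs with h
  · exact hab.symm
  · exact h

lemma put_of_rep {a b : Ω} {M : ℕ} (ω r : Fin M → Ω) (h : rep a b ω = r) :
    ∃ A, put a b r A = ω := by
  classical
  refine ⟨Finset.univ.filter fun j => ω j.1 = a, ?_⟩
  funext i
  have hi : rep a b ω i = r i := congrFun h i
  unfold rep at hi
  unfold put
  by_cases hb : r i = b
  · rw [dif_pos hb]
    simp only [Finset.mem_filter, Finset.mem_univ, true_and]
    by_cases ha : ω i = a
    · rw [if_pos ha, ha]
    · rw [if_neg ha]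
      rw [if_neg ha, hb] at hi
      exact hi.symm
  · rw [dif_neg hb]
    by_cases ha : ω i = a
    · rw [if_pos ha] at hi
      exact absurd hi.symm hb
    · rw [if_neg ha] at hi
      exact hi.symm

lemma fibre_eq [Fintype Ω] {a b : Ω} {M : ℕ} (r : Fin M → Ω) (hr : ∀ i, r i ≠ a) :
    (Finset.univ.filter fun ω : Fin M → Ω => rep a b ω = r) =
      Finset.univ.image (put a b r) := by
  ext ω
  simp only [Finset.mem_filter, Finset.mem_univ, true_and, Finset.mem_image]
  constructor
  · exact put_of_rep ω r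
  · rintro ⟨A, rfl⟩
    exact rep_put r hr A

lemma marked_put {a b : Ω} {M : ℕ} (r : Fin M → Ω) (hr : ∀ i, r i ≠ a)
    (A : Finset {i : Fin M // r i = b}) :
    marked a b (put a b r A) = Fintype.card {i : Fin M // r i = b} := by
  unfold marked
  rw [Fintype.card_subtype]
  congr 1
  ext i
  simp only [Finset.mem_filter, Finset.mem_univ, true_and]
  unfold put
  by_cases h : r i = b
  · rw [dif_pos h]
    split_ifs <;> simp [h]
  · rw [dif_neg h]
    simp [h, hr i]

end fibre

/-- MODULE AC, part 1 (anti-concentration on swap classes). -/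
theorem anti_conc {Ω : Type} [Fintype Ω] [DecidableEq Ω] (a b : Ω) (hab : a ≠ b) (M : ℕ)
    (G : (Fin M → Ω) → Prop) [DecidablePred G] (f : (Fin M → Ω) → ℚ)
    (c : (Fin M → Ω) → Fin M → ℚ)
    (hG : ∀ ω i, G (Function.update ω i a) ↔ G (Function.update ω i b))
    (hc : ∀ ω i j, c (Function.update ω i a) j = c (Function.update ω i b) j)
    (hf : ∀ ω i, f (Function.update ω i a) - f (Function.update ω i b) =
      c (Function.update ω i b) i)
    (hne : ∀ ω i, G ω → (ω i = a ∨ ω i = b) → c ω i ≠ 0) (x : ℚ) :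
    (((Finset.univ.filter fun ω => G ω ∧ f ω = x).card : ℕ) : ℝ) ≤
      ∑ ω ∈ Finset.univ.filter (fun ω => G ω), 1 / Real.sqrt ((marked a b ω : ℝ) + 1) := by
  classical
  -- values on a fibre
  have hput : ∀ (r : Fin M → Ω) (A : Finset {i : Fin M // r i = b}),
      (G (put a b r A) ↔ G r) ∧ (∀ j, c (put a b r A) j = c r j) ∧
      f (put a b r A) = f r + ∑ j ∈ A, c r j.1 := by
    intro r A
    induction A using Finset.induction_on with
    | empty => rw [put_empty]; simp
    | insert j A hj ih =>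
      obtain ⟨h1, h2, h3⟩ := ih
      have e := put_update a b r A j hj
      have g1 := hG (put a b r A) j.1
      have g2 := hc (put a b r A) j.1
      have g3 := hf (put a b r A) j.1
      rw [e] at g1 g3
      simp only [e] at g2
      rw [put_insert]
      refine ⟨g1.trans h1, fun k => (g2 k).trans (h2 k), ?_⟩
      rw [Finset.sum_insert hj, ← h2 j.1]
      linarith
  have hL : (((Finset.univ.filter fun ω => G ω ∧ f ω = x).card : ℕ) : ℝ) =
      ∑ ω : Fin M → Ω, if (G ω ∧ f ω = x) then (1 : ℝ) else 0 := by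
    rw [Finset.card_filter]; push_cast; rfl
  have hR : ∑ ω ∈ Finset.univ.filter (fun ω => G ω), 1 / Real.sqrt ((marked a b ω : ℝ) + 1) =
      ∑ ω : Fin M → Ω, if G ω then 1 / Real.sqrt ((marked a b ω : ℝ) + 1) else 0 := by
    rw [Finset.sum_filter]
  rw [hL, hR, ← Finset.sum_fiberwise (s := Finset.univ) (g := rep a b)
      (f := fun ω : Fin M → Ω => if (G ω ∧ f ω = x) then (1 : ℝ) else 0),
    ← Finset.sum_fiberwise (s := Finset.univ) (g := rep a b)
      (f := fun ω : Fin M → Ω => if G ω then 1 / Real.sqrt ((marked a b ω : ℝ) + 1) else 0)]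
  apply Finset.sum_le_sum
  intro r _
  by_cases hr : ∀ i, r i ≠ a
  swap
  · have hempty : (Finset.univ.filter fun ω : Fin M → Ω => rep a b ω = r) = ∅ := by
      apply Finset.filter_eq_empty_iff.2
      intro ω _ h
      apply hr
      intro i
      rw [← h]
      exact rep_ne hab ω i
    rw [hempty, Finset.sum_empty, Finset.sum_empty]
  rw [fibre_eq r hr, Finset.sum_image (fun A _ B _ h => put_injective hab r h),
    Finset.sum_image (fun A _ B _ h => put_injective hab r h)]
  by_cases hGr : G r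
  swap
  · apply Finset.sum_le_sum
    intro A _
    have h1 : ¬ G (put a b r A) := fun h => hGr ((hput r A).1.1 h)
    rw [if_neg (fun h => h1 h.1), if_neg h1]
  have e1 : ∀ A : Finset {i : Fin M // r i = b},
      (if (G (put a b r A) ∧ f (put a b r A) = x) then (1 : ℝ) else 0) =
        if (∑ j ∈ A, c r j.1 = x - f r) then 1 else 0 := by
    intro A
    have h1 := hput r A
    have h2 : (G (put a b r A) ∧ f (put a b r A) = x) ↔ ∑ j ∈ A, c r j.1 = x - f r := by
      rw [h1.2.2, h1.1]
      constructor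
      · rintro ⟨-, h⟩; linarith
      · intro h; exact ⟨hGr, by linarith⟩
    simp only [h2]
  have e2 : ∀ A : Finset {i : Fin M // r i = b},
      (if G (put a b r A) then 1 / Real.sqrt ((marked a b (put a b r A) : ℝ) + 1) else 0) =
        1 / Real.sqrt ((Fintype.card {i : Fin M // r i = b} : ℝ) + 1) := by
    intro A
    rw [if_pos ((hput r A).1.2 hGr), marked_put r hr A]
  rw [Finset.sum_congr rfl fun A _ => e1 A, Finset.sum_congr rfl fun A _ => e2 A,
    Finset.sum_const, Finset.card_univ, Fintype.card_finset, nsmul_eq_mul]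
  have e3 : ∑ A : Finset {i : Fin M // r i = b},
      (if (∑ j ∈ A, c r j.1 = x - f r) then (1 : ℝ) else 0) =
      (((Finset.univ.filter fun A : Finset {i : Fin M // r i = b} =>
        ∑ j ∈ A, c r j.1 = x - f r).card : ℕ) : ℝ) := by
    rw [Finset.card_filter]; push_cast; rfl
  rw [e3]
  have h1 := littlewood_offord (fun j : {i : Fin M // r i = b} => c r j.1)
    (fun j => hne r j.1 hGr (Or.inr j.2)) (x - f r)
  have h2 := choose_half_le (Fintype.card {i : Fin M // r i = b})
  push_cast
  calc (((Finset.univ.filter fun A : Finset {i : Fin M // r i = b} =>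
        ∑ j ∈ A, c r j.1 = x - f r).card : ℕ) : ℝ)
      ≤ (((Fintype.card {i : Fin M // r i = b}).choose
          (Fintype.card {i : Fin M // r i = b} / 2) : ℕ) : ℝ) := by exact_mod_cast h1
    _ ≤ _ := h2

/-- MODULE AC, part 2. -/
theorem sum_marked {Ω : Type} [Fintype Ω] [DecidableEq Ω] (a b : Ω) (hab : a ≠ b) (M : ℕ) :
    ∑ ω : Fin M → Ω, 1 / Real.sqrt ((marked a b ω : ℝ) + 1) ≤
      (Fintype.card Ω : ℝ) ^ M * Real.sqrt ((Fintype.card Ω : ℝ) / (M + 1)) := by
  classical
  set Q : ℝ := (Fintype.card Ω : ℝ) with hQ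
  have hQ2 : 2 ≤ Q := by
    rw [hQ]
    have : 1 < Fintype.card Ω := Fintype.one_lt_card_iff.2 ⟨a, b, hab⟩
    exact_mod_cast this
  have hpow : ∀ t : ℝ, ∑ ω : Fin M → Ω, t ^ marked a b ω = (Q - 2 + 2 * t) ^ M := by
    intro t
    have h1 : ∀ ω : Fin M → Ω, t ^ marked a b ω = ∏ i, if (ω i = a ∨ ω i = b) then t else 1 := by
      intro ω
      unfold marked
      rw [Finset.prod_ite, Finset.prod_const, Finset.prod_const_one, mul_one]
    rw [Finset.sum_congr rfl fun ω _ => h1 ω,
      ← Fintype.sum_pow (fun y : Ω => if (y = a ∨ y = b) then t else 1) M]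
    congr 1
    have h2 : ∀ y : Ω, (if (y = a ∨ y = b) then t else 1) =
        1 + ((if y = a then (t - 1) else 0) + (if y = b then (t - 1) else 0)) := by
      intro y
      by_cases ha : y = a
      · subst ha; simp [hab]
      · by_cases hb : y = b
        · subst hb; simp [hab.symm]
        · simp [ha, hb]
    rw [Finset.sum_congr rfl fun y _ => h2 y, Finset.sum_add_distrib, Finset.sum_add_distrib,
      Finset.sum_ite_eq', Finset.sum_ite_eq', if_pos (Finset.mem_univ a),
      if_pos (Finset.mem_univ b), Finset.sum_const, Finset.card_univ, nsmul_eq_mul, ← hQ]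
    ring
  have hint : ∑ ω : Fin M → Ω, 1 / ((marked a b ω : ℝ) + 1) ≤ Q ^ (M + 1) / (M + 1) := by
    have h1 : ∀ ω : Fin M → Ω, 1 / ((marked a b ω : ℝ) + 1) =
        ∫ t in (0 : ℝ)..1, t ^ marked a b ω := by
      intro ω
      rw [integral_pow]
      simp
    rw [Finset.sum_congr rfl fun ω _ => h1 ω, ← intervalIntegral.integral_finsetSum]
    swap
    · intro ω _
      exact (continuous_pow _).intervalIntegrable _ _
    have h2 : (fun t : ℝ => ∑ ω : Fin M → Ω, t ^ marked a b ω) = fun t => (Q - 2 + 2 * t) ^ M := by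
      funext t; exact hpow t
    rw [h2]
    have h3 : ∀ t ∈ Set.uIcc (0 : ℝ) 1, HasDerivAt
        (fun t : ℝ => (Q - 2 + 2 * t) ^ (M + 1) / (2 * ((M : ℝ) + 1))) ((Q - 2 + 2 * t) ^ M) t := by
      intro t _
      have d1 : HasDerivAt (fun t : ℝ => Q - 2 + 2 * t) 2 t := by
        simpa using ((hasDerivAt_id t).const_mul 2).const_add (Q - 2)
      have d2 := (d1.pow (M + 1)).div_const (2 * ((M : ℝ) + 1))
      refine d2.congr_deriv ?_
      have hM : (0 : ℝ) < (M : ℝ) + 1 := by positivity
      simp only [Nat.add_sub_cancel]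
      push_cast
      field_simp
    rw [intervalIntegral.integral_eq_sub_of_hasDerivAt h3
      ((by fun_prop : Continuous fun t : ℝ => (Q - 2 + 2 * t) ^ M).intervalIntegrable _ _)]
    have hM : (0 : ℝ) < (M : ℝ) + 1 := by positivity
    have h4 : (Q - 2 + 2 * 1 : ℝ) = Q := by ring
    have h5 : (0 : ℝ) ≤ (Q - 2 + 2 * 0) ^ (M + 1) / (2 * ((M : ℝ) + 1)) := by
      have : (0 : ℝ) ≤ Q - 2 + 2 * 0 := by linarith
      positivity
    have h6 : Q ^ (M + 1) / (2 * ((M : ℝ) + 1)) ≤ Q ^ (M + 1) / ((M : ℝ) + 1) := by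
      apply div_le_div_of_nonneg_left (by positivity) hM
      linarith
    simp only [h4]
    linarith
  have hcs : (∑ ω : Fin M → Ω, 1 / Real.sqrt ((marked a b ω : ℝ) + 1)) ^ 2 ≤
      Q ^ M * (Q ^ (M + 1) / (M + 1)) := by
    have h1 := sq_sum_le_card_mul_sum_sq (s := (Finset.univ : Finset (Fin M → Ω)))
      (f := fun ω => 1 / Real.sqrt ((marked a b ω : ℝ) + 1))
    have h2 : ((Finset.univ : Finset (Fin M → Ω)).card : ℝ) = Q ^ M := by
      rw [Finset.card_univ, Fintype.card_fun, Fintype.card_fin]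
      push_cast
      rfl
    rw [h2] at h1
    refine h1.trans ?_
    apply mul_le_mul_of_nonneg_left _ (by positivity)
    refine le_trans (le_of_eq ?_) hint
    apply Finset.sum_congr rfl
    intro ω _
    rw [div_pow, one_pow, Real.sq_sqrt (by positivity)]
  have hM : (0 : ℝ) < (M : ℝ) + 1 := by positivity
  rw [← pow_le_pow_iff_left₀ (by positivity) (by positivity) two_ne_zero, mul_pow,
    Real.sq_sqrt (by positivity)]
  refine hcs.trans (le_of_eq ?_)
  ring

end Pool.Agent.Helper67.KZ
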